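import Pool.Agent.Lib.MP_abd978_an.UN.Interfaces

/-!
# CONST: `P(N)` implies that `σ` is constant
-/

set_option autoImplicit false

open MeasureTheory Metric Set Filter Topology ContDiff
open scoped Gradient RealInnerProductSpace NNReal ENNReal

namespace Pool.Agent.Lib.MP_abd978_an.UN.H47

/-! ### The determinant -/

/-- the word of the letters different from `j` -/
def wd {N : ℕ} (j : Fin (N + 1)) : Fin N → Fin (N + 1) ⊕ Fin (N + 1) :=
  fun i => Sum.inl (j.succAbove i)

theorem cons_perm {N : ℕ} (j : Fin (N + 1)) :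
    (Fin.cons (EuclideanSpace.single j (1 : ℝ)) fun i =>
      EuclideanSpace.single (j.succAbove i) (1 : ℝ) : Fin (N + 1) → E (N + 1)) =
      (fun k => EuclideanSpace.single k (1 : ℝ)) ∘ (j.cycleRange.symm) := by
  funext k
  refine Fin.cases ?_ (fun i => ?_) k
  · rw [Fin.cons_zero, Function.comp_apply, Fin.cycleRange_symm_zero]
  · rw [Fin.cons_succ, Function.comp_apply, Fin.cycleRange_symm_succ]

theorem bdet_basis (N : ℕ) :
    bdet N (fun k => EuclideanSpace.single k (1 : ℝ)) = 1 := by
  have h : (fun k => EuclideanSpace.single k (1 : ℝ) : Fin (N + 1) → E (N + 1)) =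
      (EuclideanSpace.basisFun (Fin (N + 1)) ℝ).toBasis := by
    funext k
    simp
  rw [h, bdet, Module.Basis.det_self]

theorem mdet_wd {N : ℕ} (f : E (N + 1) → E (N + 1)) (x : E (N + 1)) (j : Fin (N + 1))
    (v : E (N + 1)) : ∃ s : ℝ, s ≠ 0 ∧ (s = ((Equiv.Perm.sign j.cycleRange.symm : ℤ) : ℝ)) ∧
      mdet f x (wd j) v = s * v j := by
  refine ⟨((Equiv.Perm.sign j.cycleRange.symm : ℤ) : ℝ), ?_, rfl, ?_⟩
  · rcases Int.units_eq_one_or (Equiv.Perm.sign j.cycleRange.symm) with h | h <;> simp [h]
  · -- linear in `v`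
    set m : Fin N → E (N + 1) := fun i => EuclideanSpace.single (j.succAbove i) (1 : ℝ) with hm
    let ℓ : E (N + 1) →ₗ[ℝ] ℝ :=
      (bdet N).toMultilinearMap.toLinearMap (Fin.cons 0 m) 0
    have hℓ : ∀ v, ℓ v = bdet N (Fin.cons v m) := by
      intro v
      change bdet N (Function.update (Fin.cons 0 m) 0 v) = _
      rw [Fin.update_cons_zero]
    let ℓ' : E (N + 1) →ₗ[ℝ] ℝ :=
      ((Equiv.Perm.sign j.cycleRange.symm : ℤ) : ℝ) • (EuclideanSpace.proj j : E (N + 1) →L[ℝ] ℝ)
    have hℓ' : ∀ v, ℓ' v = ((Equiv.Perm.sign j.cycleRange.symm : ℤ) : ℝ) * v j := fun v => rfl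
    have heq : ℓ = ℓ' := by
      refine (EuclideanSpace.basisFun (Fin (N + 1)) ℝ).toBasis.ext fun k => ?_
      have hb : (EuclideanSpace.basisFun (Fin (N + 1)) ℝ).toBasis k =
          EuclideanSpace.single k (1 : ℝ) := by simp
      rw [hb, hℓ, hℓ']
      by_cases hk : k = j
      · subst hk
        rw [hm, cons_perm, AlternatingMap.map_perm, bdet_basis]
        simp [Units.smul_def]
      · obtain ⟨i, hi⟩ := Fin.exists_succAbove_eq hk
        have : bdet N (Fin.cons (EuclideanSpace.single k (1 : ℝ)) m) = 0 := by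
          refine AlternatingMap.map_eq_zero_of_eq _ _ (i := 0) (j := i.succ) ?_
            (Fin.succ_ne_zero i).symm
          rw [Fin.cons_zero, Fin.cons_succ, hm]
          simp only
          rw [hi]
        rw [this]
        simp [Ne.symm hk]
    have := congrArg (fun l : E (N + 1) →ₗ[ℝ] ℝ => l v) heq
    simp only [hℓ, hℓ'] at this
    exact this

theorem nl_wd {N : ℕ} (j : Fin (N + 1)) : nl (wd j) ≤ N := by
  unfold nl
  refine (Finset.card_filter_le _ _).trans ?_
  simp

/-- the weak partial derivatives vanish -/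
theorem weak_zero {N : ℕ} {Ω : Set (E (N + 1))} {f : E (N + 1) → E (N + 1)}
    {σ : E (N + 1) → ℝ} (h : PP Ω f σ N) (j : Fin (N + 1)) (φ : E (N + 1) → ℝ)
    (hφ : Test Ω φ) : ∫ x, σ x * fderiv ℝ φ x (EuclideanSpace.single j 1) = 0 := by
  have hlip : LipC Ω φ :=
    ⟨ContDiff.lipschitzWith_of_hasCompactSupport hφ.2.1 hφ.1 (by simp), hφ.2.1, hφ.2.2⟩
  have h1 := h (wd j) (nl_wd j) φ hlip
  set s : ℝ := ((Equiv.Perm.sign j.cycleRange.symm : ℤ) : ℝ) with hs
  have hs0 : s ≠ 0 := by
    rcases Int.units_eq_one_or (Equiv.Perm.sign j.cycleRange.symm) with h | h <;> simp [hs, h]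
  have h2 : ∀ x, σ x * mdet f x (wd j) (∇ φ x) =
      s * (σ x * fderiv ℝ φ x (EuclideanSpace.single j 1)) := by
    intro x
    obtain ⟨s', -, hs', h3⟩ := mdet_wd f x j (∇ φ x)
    rw [h3, hs', ← hs, ← inner_gradient_left, EuclideanSpace.inner_single_right]
    simp
    ring
  simp only [h2] at h1
  rw [integral_const_mul] at h1
  exact (mul_eq_zero.1 h1).resolve_left hs0

/-! ### Functions with vanishing weak derivatives are locally constant -/

theorem local_const {n : ℕ} (x₀ : E n) (r : ℝ) (hr : 0 < r) (g : E n → ℝ)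
    (hg : LocallyIntegrable g volume)
    (h : ∀ (j : Fin n) (φ : E n → ℝ), Test (ball x₀ (2 * r)) φ →
      ∫ x, g x * fderiv ℝ φ x (EuclideanSpace.single j 1) = 0) :
    ∃ κ : ℝ, ∀ᵐ x : E n, x ∈ ball x₀ r → g x = κ := by
  -- mollifiers
  let ρ : ℕ → ContDiffBump (0 : E n) := fun i =>
    ⟨r / (2 * ((i : ℝ) + 2)), r / ((i : ℝ) + 2), by positivity, by
      apply div_lt_div_of_pos_left hr (by positivity)
      have : (0 : ℝ) ≤ i := Nat.cast_nonneg i
      linarith⟩
  have hrOut : ∀ i, (ρ i).rOut = r / ((i : ℝ) + 2) := fun i => rfl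
  have hrIn : ∀ i, (ρ i).rIn = r / (2 * ((i : ℝ) + 2)) := fun i => rfl
  have hlim : Tendsto (fun i => (ρ i).rOut) atTop (𝓝 0) := by
    simp only [hrOut]
    refine Tendsto.div_atTop tendsto_const_nhds ?_
    exact tendsto_atTop_add_const_right _ _ tendsto_natCast_atTop_atTop
  have hratio : ∀ᶠ i in atTop, (ρ i).rOut ≤ 2 * (ρ i).rIn := by
    refine Eventually.of_forall fun i => ?_
    rw [hrOut, hrIn]
    apply le_of_eq
    have : (0 : ℝ) < (i : ℝ) + 2 := by positivity
    field_simp
  have hlt : ∀ i, (ρ i).rOut < r := by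
    intro i
    rw [hrOut, div_lt_iff₀ (by positivity)]
    have : (0 : ℝ) ≤ i := Nat.cast_nonneg i
    nlinarith
  have hae := ContDiffBump.ae_convolution_tendsto_right_of_locallyIntegrable
    (φ := ρ) (μ := (volume : Measure (E n))) hlim hratio hg
  -- the mollified functions are constant in the ball
  have hconst : ∀ i, ∃ c : ℝ, ∀ x ∈ ball x₀ r,
      convolution ((ρ i).normed volume) g (ContinuousLinearMap.lsmul ℝ ℝ) volume x = c := by
    intro i
    have hcs : HasCompactSupport ((ρ i).normed (volume : Measure (E n))) :=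
      (ρ i).hasCompactSupport_normed
    have hcd : ContDiff ℝ 1 ((ρ i).normed (volume : Measure (E n))) :=
      (ρ i).contDiff_normed (n := 1)
    have hcd' : ContDiff ℝ ∞ ((ρ i).normed (volume : Measure (E n))) :=
      (ρ i).contDiff_normed (n := ⊤)
    have hder := fun x => hcs.hasFDerivAt_convolution_left (ContinuousLinearMap.lsmul ℝ ℝ)
      hcd hg x
    refine isOpen_ball.exists_is_const_of_fderiv_eq_zero (𝕜 := ℝ)
      (convex_ball x₀ r).isPreconnected
      (fun x _ => (hder x).differentiableAt.differentiableWithinAt) ?_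
    intro x hx
    rw [(hder x).fderiv, Pi.zero_apply]
    -- test on the basis vectors
    refine ContinuousLinearMap.coe_injective ?_
    refine (EuclideanSpace.basisFun (Fin n) ℝ).toBasis.ext fun j => ?_
    have hb : (EuclideanSpace.basisFun (Fin n) ℝ).toBasis j =
        EuclideanSpace.single j (1 : ℝ) := by simp
    rw [hb]
    have hex : ConvolutionExistsAt (fderiv ℝ ((ρ i).normed (volume : Measure (E n)))) g x
        ((ContinuousLinearMap.lsmul ℝ ℝ).precompL (E n)) volume :=
      (hcs.fderiv ℝ).convolutionExists_left _ (hcd.continuous_fderiv one_ne_zero) hg x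
    have h1 : (convolution (fderiv ℝ ((ρ i).normed (volume : Measure (E n)))) g
        ((ContinuousLinearMap.lsmul ℝ ℝ).precompL (E n)) volume x)
        (EuclideanSpace.single j (1 : ℝ)) =
        ∫ t, fderiv ℝ ((ρ i).normed (volume : Measure (E n))) (x - t)
          (EuclideanSpace.single j (1 : ℝ)) * g t := by
      rw [convolution_eq_swap, ContinuousLinearMap.integral_apply]
      · rfl
      · have := hex.integrable_swap
        exact this
    rw [ContinuousLinearMap.coe_coe, h1]
    -- the translated mollifier is a test function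
    have htest : Test (ball x₀ (2 * r))
        (fun t => (ρ i).normed (volume : Measure (E n)) (x - t)) := by
      have hsub : tsupport (fun t => (ρ i).normed (volume : Measure (E n)) (x - t)) ⊆
          closedBall x (ρ i).rOut := by
        refine closure_minimal ?_ isClosed_closedBall
        intro t ht
        have : x - t ∈ Function.support ((ρ i).normed (volume : Measure (E n))) := ht
        rw [ContDiffBump.support_normed_eq, mem_ball, dist_zero_right] at this
        rw [mem_closedBall, dist_comm, dist_eq_norm]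
        exact this.le
      refine ⟨hcd'.comp (contDiff_const.sub contDiff_id), ?_, hsub.trans ?_⟩
      · exact HasCompactSupport.intro (isCompact_closedBall x (ρ i).rOut) fun t ht => by
          by_contra hne
          exact ht (hsub (subset_tsupport _ hne))
      · intro t ht
        rw [mem_closedBall] at ht
        rw [mem_ball] at hx ⊢
        have := hlt i
        calc dist t x₀ ≤ dist t x + dist x x₀ := dist_triangle _ _ _
          _ < 2 * r := by linarith
    have h2 := h j _ htest
    have h3 : ∀ t, fderiv ℝ (fun t => (ρ i).normed (volume : Measure (E n)) (x - t)) t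
        (EuclideanSpace.single j (1 : ℝ)) =
        -(fderiv ℝ ((ρ i).normed (volume : Measure (E n))) (x - t)
          (EuclideanSpace.single j (1 : ℝ))) := by
      intro t
      have hd : HasFDerivAt ((ρ i).normed (volume : Measure (E n)))
          (fderiv ℝ ((ρ i).normed (volume : Measure (E n))) (x - t)) (x - t) :=
        (hcd.differentiable one_ne_zero).differentiableAt.hasFDerivAt
      have hs : HasFDerivAt (fun t : E n => x - t) (-ContinuousLinearMap.id ℝ (E n)) t := by
        have := (hasFDerivAt_const (𝕜 := ℝ) x t).sub (hasFDerivAt_id (𝕜 := ℝ) t)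
        rw [zero_sub] at this
        exact this
      have := (hd.comp t hs).fderiv
      have h4 : fderiv ℝ (fun t => (ρ i).normed (volume : Measure (E n)) (x - t)) t =
          (fderiv ℝ ((ρ i).normed (volume : Measure (E n))) (x - t)).comp
            (-ContinuousLinearMap.id ℝ (E n)) := this
      rw [h4]
      simp
    simp only [h3] at h2
    have h5 : ∀ t, g t * -(fderiv ℝ ((ρ i).normed (volume : Measure (E n))) (x - t)
          (EuclideanSpace.single j (1 : ℝ))) =
        -(fderiv ℝ ((ρ i).normed (volume : Measure (E n))) (x - t)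
          (EuclideanSpace.single j (1 : ℝ)) * g t) := fun t => by ring
    simp only [h5, integral_neg, neg_eq_zero] at h2
    rw [h2]
    rfl
  choose c hc using hconst
  refine ⟨limUnder atTop c, ?_⟩
  filter_upwards [hae] with x hx hxb
  have h1 : Tendsto c atTop (𝓝 (g x)) := by
    refine hx.congr fun i => ?_
    exact hc i x hxb
  exact h1.limUnder_eq.symm

/-- `σ` is a.e. equal to `κ` near `x` -/
def LC {n : ℕ} (σ : E n → ℝ) (κ : ℝ) (x : E n) : Prop :=
  ∃ r : ℝ, 0 < r ∧ ∀ᵐ z : E n, z ∈ ball x r → σ z = κ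

theorem LC.unique {n : ℕ} {σ : E n → ℝ} {κ κ' : ℝ} {x : E n} (h : LC σ κ x) (h' : LC σ κ' x) :
    κ = κ' := by
  obtain ⟨r, hr, h1⟩ := h
  obtain ⟨r', hr', h2⟩ := h'
  by_contra hne
  have h3 : ∀ᵐ z : E n, z ∉ ball x (min r r') := by
    filter_upwards [h1, h2] with z hz1 hz2 hz
    rw [mem_ball, lt_min_iff] at hz
    exact hne ((hz1 hz.1).symm.trans (hz2 hz.2))
  have h4 : (volume : Measure (E n)) (ball x (min r r')) = 0 := by
    refine measure_mono_null ?_ (ae_iff.1 h3)
    intro z hz
    simpa using hz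
  exact (measure_ball_pos volume x (lt_min hr hr')).ne' h4

theorem LC.near {n : ℕ} {σ : E n → ℝ} {κ : ℝ} {x : E n} (h : LC σ κ x) :
    ∀ᶠ y in 𝓝 x, LC σ κ y := by
  obtain ⟨r, hr, h1⟩ := h
  filter_upwards [ball_mem_nhds x (half_pos hr)] with y hy
  refine ⟨r / 2, half_pos hr, ?_⟩
  filter_upwards [h1] with z hz hz'
  apply hz
  rw [mem_ball] at *
  linarith [dist_triangle z y x]

theorem const : ConstStatement := by
  intro N p Ω f σ hS hF hΩ hP
  obtain ⟨C, hC⟩ := hF.bound
  have hp := hS.hp
  -- local statement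
  have hloc : ∀ x ∈ Ω, ∃ κ, LC σ κ x := by
    intro x hx
    obtain ⟨K, U, hU, hK⟩ := hS.loclip x hx
    obtain ⟨R, hR, hRU⟩ := Metric.mem_nhds_iff.1 (inter_mem hU (hS.isOpen.mem_nhds hx))
    set r : ℝ := R / 3 with hr
    have hr0 : 0 < r := by positivity
    have hsub : ball x (2 * r) ⊆ ball x R := ball_subset_ball (by rw [hr]; linarith)
    have hbd : ∀ᵐ z : E (N + 1), z ∈ ball x (2 * r) →
        |σ z| ≤ |C| * (K : ℝ) ^ (p - (N + 1)) := by
      filter_upwards [hC] with z hz hzb
      have hzR : z ∈ ball x R := hsub hzb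
      have h1 := hz (hRU hzR).2
      have h2 : ‖fderiv ℝ f z‖ ≤ K :=
        norm_fderiv_le_of_lipschitzOn ℝ (mem_of_superset (isOpen_ball.mem_nhds hzR)
          fun y hy => (hRU hy).1) hK
      have h3 : ‖fderiv ℝ f z‖ ^ (p - (N + 1)) ≤ (K : ℝ) ^ (p - (N + 1)) :=
        Real.rpow_le_rpow (norm_nonneg _) h2 (by linarith)
      calc |σ z| ≤ C * ‖fderiv ℝ f z‖ ^ (p - (N + 1)) := h1
        _ ≤ |C| * ‖fderiv ℝ f z‖ ^ (p - (N + 1)) :=
            mul_le_mul_of_nonneg_right (le_abs_self C) (Real.rpow_nonneg (norm_nonneg _) _)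
        _ ≤ _ := mul_le_mul_of_nonneg_left h3 (abs_nonneg C)
    have hint : IntegrableOn σ (ball x (2 * r)) volume := by
      refine Measure.integrableOn_of_bounded (M := |C| * (K : ℝ) ^ (p - (N + 1)))
        measure_ball_lt_top.ne hF.meas.aestronglyMeasurable ?_
      rw [ae_restrict_iff' measurableSet_ball]
      exact hbd
    have hg : LocallyIntegrable ((ball x (2 * r)).indicator σ) volume :=
      ((integrable_indicator_iff measurableSet_ball).2 hint).locallyIntegrable
    obtain ⟨κ, hκ⟩ := local_const x r hr0 ((ball x (2 * r)).indicator σ) hg (by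
      intro j φ hφ
      have h1 : ∀ z, (ball x (2 * r)).indicator σ z *
          fderiv ℝ φ z (EuclideanSpace.single j 1) =
          σ z * fderiv ℝ φ z (EuclideanSpace.single j 1) := by
        intro z
        by_cases hz : z ∈ ball x (2 * r)
        · rw [indicator_of_mem hz]
        · have h2 : fderiv ℝ φ z = 0 := by
            have : z ∉ tsupport (fderiv ℝ φ) := fun h =>
              hz (hφ.2.2 (tsupport_fderiv_subset ℝ h))
            exact image_eq_zero_of_notMem_tsupport this
          rw [h2]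
          simp
      simp only [h1]
      exact weak_zero hP j φ (hφ.mono fun z hz => (hRU (hsub hz)).2))
    refine ⟨κ, r, hr0, ?_⟩
    filter_upwards [hκ] with z hz hzr
    have := hz hzr
    rwa [indicator_of_mem (ball_subset_ball (by linarith) hzr)] at this
  rcases Ω.eq_empty_or_nonempty with h0 | ⟨x₀, hx₀⟩
  · exact ⟨0, by simp [h0]⟩
  obtain ⟨κ, hκ⟩ := hloc x₀ hx₀
  have hall : ∀ x ∈ Ω, LC σ κ x := by
    intro x hx
    have := hΩ.induction₂ (fun x y => ∃ κ, LC σ κ x ∧ LC σ κ y) (by
      intro y hy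
      obtain ⟨κ', hκ'⟩ := hloc y hy
      exact (hκ'.near.filter_mono nhdsWithin_le_nhds).mono fun z hz => ⟨κ', hκ', hz⟩) (by
      rintro a b c ha hb hc ⟨κ₁, h1, h2⟩ ⟨κ₂, h3, h4⟩
      have := h2.unique h3
      subst this
      exact ⟨κ₁, h1, h4⟩) (by
      rintro a b ha hb ⟨κ₁, h1, h2⟩
      exact ⟨κ₁, h2, h1⟩) hx₀ hx
    obtain ⟨κ', h1, h2⟩ := this
    rw [hκ.unique h1]
    exact h2
  refine ⟨κ, ?_⟩
  rw [ae_iff]
  refine measure_null_of_locally_null _ ?_
  intro x hx
  simp only [mem_ofPred_eq, Classical.not_imp] at hx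
  obtain ⟨r, hr, h1⟩ := hall x hx.1
  refine ⟨{a | ¬(a ∈ Ω → σ a = κ)} ∩ ball x r, ?_, ?_⟩
  · exact inter_mem self_mem_nhdsWithin (mem_nhdsWithin_of_mem_nhds (ball_mem_nhds x hr))
  · refine measure_mono_null ?_ (ae_iff.1 h1)
    rintro z ⟨hz1, hz2⟩
    simp only [mem_ofPred_eq, Classical.not_imp] at hz1 ⊢
    exact ⟨hz2, hz1.2⟩

end Pool.Agent.Lib.MP_abd978_an.UN.H47
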